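import Mathlib

set_option autoImplicit false

/-!
Test functions, patching of smooth functions, integration by parts in the plane.
-/

namespace Q8.TM

open MeasureTheory Metric Set
open scoped ContDiff Topology

/-- The Euclidean plane. -/
abbrev Plane : Type := EuclideanSpace ℝ (Fin 2)

/-- `u` is a function of the class `C_0^∞(Ω)`. -/
structure IsTest (Ω : Set Plane) (u : Plane → ℝ) : Prop where
  smooth : ContDiff ℝ ∞ u
  compact : HasCompactSupport u
  support : tsupport u ⊆ Ω

/-- the standard basis -/
noncomputable def e (i : Fin 2) : Plane := EuclideanSpace.single i 1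

theorem norm_sq_eq (L : Plane →L[ℝ] ℝ) : ‖L‖ ^ 2 = ∑ i, L (e i) ^ 2 := by
  set y : Plane := (InnerProductSpace.toDual ℝ Plane).symm L with hy
  have h1 : ‖L‖ = ‖y‖ := by rw [hy, LinearIsometryEquiv.norm_map]
  have h2 : ∀ i, L (e i) = y i := by
    intro i
    have : L (e i) = inner ℝ y (e i) := by
      rw [hy, InnerProductSpace.toDual_symm_apply]
    rw [this, real_inner_comm, e, EuclideanSpace.inner_single_left]
    simp
  rw [h1, EuclideanSpace.norm_sq_eq]
  simp only [h2, Real.norm_eq_abs, sq_abs]

/-- A function which is smooth on an open set and vanishes outside a closed subset is smooth. -/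
theorem patch {Ω K : Set Plane} (ho : IsOpen Ω) (hK : IsClosed K) (hKΩ : K ⊆ Ω) {f : Plane → ℝ}
    (hf : ContDiffOn ℝ ∞ f Ω) (h0 : ∀ x, x ∉ K → f x = 0) : ContDiff ℝ ∞ f := by
  rw [contDiff_iff_contDiffAt]
  intro x
  by_cases hx : x ∈ Ω
  · exact (hf x hx).contDiffAt (ho.mem_nhds hx)
  · have hxK : x ∉ K := fun h => hx (hKΩ h)
    have : f =ᶠ[𝓝 x] fun _ => 0 := by
      filter_upwards [hK.isOpen_compl.mem_nhds hxK] with y hy
      exact h0 y hy
    exact contDiffAt_const.congr_of_eventuallyEq this

theorem compact_of_zero {K : Set Plane} (hK : IsCompact K) {f : Plane → ℝ}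
    (h0 : ∀ x, x ∉ K → f x = 0) : HasCompactSupport f :=
  HasCompactSupport.intro hK h0

theorem tsupport_sub {K : Set Plane} (hK : IsClosed K) {f : Plane → ℝ}
    (h0 : ∀ x, x ∉ K → f x = 0) : tsupport f ⊆ K := by
  apply closure_minimal _ hK
  intro x hx
  by_contra h
  exact hx (h0 x h)

/-- The integral of a derivative of a smooth function of compact support vanishes. -/
theorem integral_fderiv_zero {w : Plane → ℝ} (hw : ContDiff ℝ ∞ w) (hc : HasCompactSupport w)
    (v : Plane) : ∫ x, fderiv ℝ w x v = 0 := by
  have hd : Differentiable ℝ w := hw.differentiable (by simp)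
  have hcont : Continuous fun x => fderiv ℝ w x v :=
    (hw.continuous_fderiv (by simp)).clm_apply continuous_const
  have hcs : HasCompactSupport fun x => fderiv ℝ w x v := by
    have := hc.fderiv_apply (𝕜 := ℝ) v
    exact this
  have := integral_mul_fderiv_eq_neg_fderiv_mul_of_integrable (μ := (volume : Measure Plane))
    (f := fun _ : Plane => (1 : ℝ)) (g := w) (v := v) ?_ ?_ ?_ ?_ ?_
  · simpa using this
  · simp
  · simpa using hcont.integrable_of_hasCompactSupport hcs
  · simpa using hw.continuous.integrable_of_hasCompactSupport hc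
  · intro x _; exact differentiableAt_const _
  · intro x _; exact hd x

theorem fderiv_zero_of_notMem {u : Plane → ℝ} {x : Plane} (hx : x ∉ tsupport u) :
    fderiv ℝ u x = 0 := by
  have : u =ᶠ[𝓝 x] fun _ => 0 := by
    filter_upwards [(isClosed_tsupport u).isOpen_compl.mem_nhds hx] with y hy
    exact image_eq_zero_of_notMem_tsupport hy
  rw [this.fderiv_eq]
  simp

end Q8.TM
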