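import Pool.Agent.Q8.TM.Identity

set_option autoImplicit false

/-!
Weak coercivity of `u ↦ ∫ |∇u|² - ∫ V u²`, `V = - Δh / h`, `h ≥ 1`.
-/

namespace Q8.TM

open MeasureTheory Metric Set
open scoped ContDiff Topology ENNReal

/-- Cauchy-Schwarz -/
theorem cs {μ : Measure Plane} {f g : Plane → ℝ} (hf : Integrable (fun x => f x ^ 2) μ)
    (hg : Integrable (fun x => g x ^ 2) μ) (hfg : Integrable (fun x => f x * g x) μ) :
    (∫ x, f x * g x ∂μ) ^ 2 ≤ (∫ x, f x ^ 2 ∂μ) * ∫ x, g x ^ 2 ∂μ := by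
  have h : ∀ t : ℝ, 0 ≤ (∫ x, f x ^ 2 ∂μ) * (t * t) + (2 * ∫ x, f x * g x ∂μ) * t +
      ∫ x, g x ^ 2 ∂μ := by
    intro t
    have e : (∫ x, f x ^ 2 ∂μ) * (t * t) + (2 * ∫ x, f x * g x ∂μ) * t + ∫ x, g x ^ 2 ∂μ =
        ∫ x, (t * f x + g x) ^ 2 ∂μ := by
      have : ∀ x, (t * f x + g x) ^ 2 = (t * t) * f x ^ 2 + (2 * t) * (f x * g x) + g x ^ 2 := by
        intro x; ring
      simp only [this]
      have i12 : Integrable (fun x => (t * t) * f x ^ 2 + (2 * t) * (f x * g x)) μ :=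
        (hf.const_mul _).add (hfg.const_mul _)
      rw [integral_add i12 hg, integral_add (hf.const_mul _) (hfg.const_mul _),
        integral_const_mul, integral_const_mul]
      ring
    rw [e]
    exact integral_nonneg fun x => sq_nonneg _
  have := discrim_le_zero h
  rw [discrim] at this
  nlinarith

/-- Poincaré inequality for test functions on a bounded open set. -/
theorem poincare {Ω : Set Plane} (ho : IsOpen Ω) (hb : Bornology.IsBounded Ω) :
    ∃ C : ℝ, 0 < C ∧ ∀ v : Plane → ℝ, IsTest Ω v →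
      ∫ x, v x ^ 2 ≤ C * ∫ x in Ω, ‖fderiv ℝ v x‖ ^ 2 := by
  have hΩ : volume Ω ≠ ⊤ := hb.measure_lt_top.ne
  have : IsFiniteMeasure (volume.restrict Ω) := ⟨by rw [Measure.restrict_apply_univ]; exact hΩ.lt_top⟩
  set c : ℝ := (eLpNormLESNormFDerivOneConst (volume : Measure Plane) 2 : ℝ) with hc
  refine ⟨c ^ 2 * (volume Ω).toReal + 1, by positivity, fun v hv => ?_⟩
  have hconj : NNReal.HolderConjugate (Module.finrank ℝ Plane) (2 : NNReal) := by
    have : ((Module.finrank ℝ Plane : ℕ) : NNReal) = 2 := by simp [Plane]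
    rw [this]
    constructor
    all_goals norm_num
  have h1 := eLpNorm_le_eLpNorm_fderiv_one (μ := (volume : Measure Plane)) (u := v)
    (hv.smooth.of_le (by simp)) hv.compact hconj
  -- integrability
  have z2 : HasCompactSupport (fun x => v x ^ 2) := compact_of_zero hv.compact (fun x hx => by
        show v x ^ 2 = 0
        rw [image_eq_zero_of_notMem_tsupport hx]; ring)
  have iv : Integrable (fun x => v x ^ 2) :=
    (hv.smooth.continuous.pow 2).integrable_of_hasCompactSupport z2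
  have hcd : Continuous (fderiv ℝ v) := hv.smooth.continuous_fderiv (by simp)
  have hsd : HasCompactSupport (fderiv ℝ v) := hv.compact.fderiv (𝕜 := ℝ)
  have hvm : MemLp v (2 : NNReal) volume := by
    have := hv.smooth.continuous.memLp_of_hasCompactSupport (p := ((2 : NNReal) : ℝ≥0∞))
      (μ := (volume : Measure Plane)) hv.compact
    exact this
  have id1 : Integrable (fderiv ℝ v) := hcd.integrable_of_hasCompactSupport hsd
  have id2 : Integrable (fun x => ‖fderiv ℝ v x‖ ^ 2) := by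
    apply (hcd.norm.pow 2).integrable_of_hasCompactSupport
    apply compact_of_zero hv.compact
    intro x hx
    show ‖fderiv ℝ v x‖ ^ 2 = 0
    rw [fderiv_zero_of_notMem hx]; simp
  -- real form of the Sobolev inequality
  have h2 : Real.sqrt (∫ x, v x ^ 2) ≤ c * ∫ x, ‖fderiv ℝ v x‖ := by
    have e1 : (eLpNorm v (2 : NNReal) volume).toReal = Real.sqrt (∫ x, v x ^ 2) := by
      rw [hvm.eLpNorm_eq_integral_rpow_norm (by norm_num) (by simp), ENNReal.toReal_ofReal (by positivity)]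
      simp [Real.sqrt_eq_rpow]
    have e2 : (eLpNorm (fderiv ℝ v) 1 volume).toReal = ∫ x, ‖fderiv ℝ v x‖ := by
      rw [eLpNorm_one_eq_lintegral_enorm, ← integral_norm_eq_lintegral_enorm id1.aestronglyMeasurable]
    have h3 := ENNReal.toReal_mono (by
      apply ENNReal.mul_ne_top ENNReal.coe_ne_top
      exact (memLp_one_iff_integrable.2 id1).eLpNorm_ne_top) h1
    rw [e1, ENNReal.toReal_mul, e2] at h3
    exact h3
  have h4 : ∫ x, ‖fderiv ℝ v x‖ = ∫ x in Ω, ‖fderiv ℝ v x‖ * 1 := by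
    simp only [mul_one]
    rw [setIntegral_eq]
    intro x hx
    rw [fderiv_zero_of_notMem (fun h => hx (hv.support h))]; simp
  have h5 := cs (μ := volume.restrict Ω) (f := fun x => ‖fderiv ℝ v x‖) (g := fun _ => 1)
    id2.integrableOn (by simp) (by
      have := id1.norm.integrableOn (s := Ω)
      simpa [IntegrableOn] using this)
  have h6 : ∫ x in Ω, (1 : ℝ) ^ 2 = (volume Ω).toReal := by simp [Measure.real]
  rw [h6, ← h4] at h5
  have h7 : ∫ x, v x ^ 2 = Real.sqrt (∫ x, v x ^ 2) ^ 2 := by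
    rw [Real.sq_sqrt (integral_nonneg fun x => sq_nonneg _)]
  have h8 : 0 ≤ ∫ x in Ω, ‖fderiv ℝ v x‖ ^ 2 := integral_nonneg fun x => sq_nonneg _
  have h9 : Real.sqrt (∫ x, v x ^ 2) ^ 2 ≤ (c * ∫ x, ‖fderiv ℝ v x‖) ^ 2 := by
    gcongr
  rw [h7]
  calc Real.sqrt (∫ x, v x ^ 2) ^ 2 ≤ (c * ∫ x, ‖fderiv ℝ v x‖) ^ 2 := h9
    _ = c ^ 2 * (∫ x, ‖fderiv ℝ v x‖) ^ 2 := by ring
    _ ≤ c ^ 2 * ((∫ x in Ω, ‖fderiv ℝ v x‖ ^ 2) * (volume Ω).toReal) := by gcongr
    _ ≤ (c ^ 2 * (volume Ω).toReal + 1) * ∫ x in Ω, ‖fderiv ℝ v x‖ ^ 2 := by nlinarith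

/-- The functional `Q` is weakly coercive on `Ω`. -/
def WeaklyCoercive (Ω : Set Plane) (Q : (Plane → ℝ) → ℝ) : Prop :=
  ∃ E : Set Plane, IsOpen E ∧ E.Nonempty ∧ IsCompact (closure E) ∧ closure E ⊆ Ω ∧
    ∃ δ : ℝ, 0 < δ ∧ ∀ u : Plane → ℝ, IsTest Ω u → δ * (∫ x in E, u x) ^ 2 ≤ Q u

theorem weaklyCoercive {Ω : Set Plane} (ho : IsOpen Ω) (hb : Bornology.IsBounded Ω)
    (hne : Ω.Nonempty) {h : Plane → ℝ} (hh : ContDiffOn ℝ ∞ h Ω) (h1 : ∀ x ∈ Ω, 1 ≤ h x) :
    WeaklyCoercive Ω (energy Ω (pot h)) := by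
  obtain ⟨C, hC, hP⟩ := poincare ho hb
  obtain ⟨x₀, hx₀⟩ := hne
  obtain ⟨r, hr, hball⟩ := Metric.nhds_basis_closedBall.mem_iff.1 (ho.mem_nhds hx₀)
  have hcl : closure (ball x₀ r) ⊆ closedBall x₀ r := closure_ball_subset_closedBall
  have hcomp : IsCompact (closedBall x₀ r) := isCompact_closedBall _ _
  refine ⟨ball x₀ r, isOpen_ball, ⟨x₀, mem_ball_self hr⟩, hcomp.of_isClosed_subset isClosed_closure hcl,
    hcl.trans hball, ?_⟩
  set H : ℝ := ∫ x in ball x₀ r, h x ^ 2 with hH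
  have hH0 : 0 ≤ H := integral_nonneg fun x => sq_nonneg _
  have hcont : ContinuousOn h (closedBall x₀ r) := hh.continuousOn.mono hball
  refine ⟨1 / (C * (H + 1)), by positivity, fun u hu => ?_⟩
  set v : Plane → ℝ := fun x => u x / h x with hv
  have hvt : IsTest Ω v := hu.div_left ho hh h1
  have huv : u = fun x => h x * v x := hu.eq_mul_div h1
  have e1 : energy Ω (pot h) u = ∫ x in Ω, h x ^ 2 * ‖fderiv ℝ v x‖ ^ 2 := by
    rw [huv]
    exact energy_mul ho hh h1 hvt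
  have hcd : Continuous (fderiv ℝ v) := hvt.smooth.continuous_fderiv (by simp)
  have id2 : Integrable (fun x => ‖fderiv ℝ v x‖ ^ 2) := by
    apply (hcd.norm.pow 2).integrable_of_hasCompactSupport
    apply compact_of_zero hvt.compact
    intro x hx
    show ‖fderiv ℝ v x‖ ^ 2 = 0
    rw [fderiv_zero_of_notMem hx]; simp
  have i3 : Integrable (fun x => h x ^ 2 * ‖fderiv ℝ v x‖ ^ 2) := by
    have z : ∀ x, x ∉ tsupport v → h x ^ 2 * ∑ i, (fderiv ℝ v x (e i)) ^ 2 = 0 := by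
      intro x hx
      rw [fderiv_zero_of_notMem hx]; simp
    have hs : ContDiff ℝ ∞ (fun x => ∑ i, (fderiv ℝ v x (e i)) ^ 2) := by
      apply ContDiff.sum
      intro i _
      exact ((hvt.smooth.fderiv_right (m := ∞) (by simp)).clm_apply contDiff_const).pow 2
    have hK : IsCompact (tsupport v) := hvt.compact
    have c := patch ho hK.isClosed hvt.support ((hh.pow 2).mul hs.contDiffOn) z
    have := c.continuous.integrable_of_hasCompactSupport (μ := volume) (compact_of_zero hK z)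
    simpa only [norm_sq_eq] using this
  have e2 : ∫ x in Ω, ‖fderiv ℝ v x‖ ^ 2 ≤ ∫ x in Ω, h x ^ 2 * ‖fderiv ℝ v x‖ ^ 2 := by
    apply setIntegral_mono_on id2.integrableOn i3.integrableOn ho.measurableSet
    intro x hx
    have := h1 x hx
    have h2 : 1 ≤ h x ^ 2 := by nlinarith
    exact le_mul_of_one_le_left (sq_nonneg _) h2
  have iv : Integrable (fun x => v x ^ 2) :=
    (hvt.smooth.continuous.pow 2).integrable_of_hasCompactSupport
      (compact_of_zero hvt.compact (fun x hx => by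
        show v x ^ 2 = 0
        rw [image_eq_zero_of_notMem_tsupport hx]; ring))
  have e3 : (∫ x in ball x₀ r, u x) ^ 2 ≤ H * ∫ x in ball x₀ r, v x ^ 2 := by
    rw [huv]
    apply cs
    · exact ((hcont.pow 2).integrableOn_compact hcomp).mono_set ball_subset_closedBall
    · exact iv.integrableOn
    · exact ((hcont.mul hvt.smooth.continuous.continuousOn).integrableOn_compact hcomp).mono_set
        ball_subset_closedBall
  have e4 : ∫ x in ball x₀ r, v x ^ 2 ≤ ∫ x, v x ^ 2 :=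
    setIntegral_le_integral iv (Filter.Eventually.of_forall fun x => sq_nonneg _)
  have e5 := hP v hvt
  have e6 : 0 ≤ ∫ x, v x ^ 2 := integral_nonneg fun x => sq_nonneg _
  rw [e1, div_mul_eq_mul_div, one_mul, div_le_iff₀ (by positivity)]
  calc (∫ x in ball x₀ r, u x) ^ 2 ≤ H * ∫ x in ball x₀ r, v x ^ 2 := e3
    _ ≤ H * ∫ x, v x ^ 2 := by gcongr
    _ ≤ (H + 1) * ∫ x, v x ^ 2 := by nlinarith
    _ ≤ (H + 1) * (C * ∫ x in Ω, ‖fderiv ℝ v x‖ ^ 2) := by gcongr
    _ ≤ (H + 1) * (C * ∫ x in Ω, h x ^ 2 * ‖fderiv ℝ v x‖ ^ 2) := by gcongr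
    _ = (∫ x in Ω, h x ^ 2 * ‖fderiv ℝ v x‖ ^ 2) * (C * (H + 1)) := by ring

end Q8.TM
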