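import Pool.Agent.Q8.TM.Basic

set_option autoImplicit false

/-!
Continuous functions are in the local Kato class.
-/

namespace Q8.TM

open MeasureTheory Metric Set
open scoped ContDiff Topology ENNReal

/-- The local Kato class `𝒦₂(Ω)`: for every compact subset `K` of `Ω`, the supremum over `x` of
`∫_{K ∩ {|x - y| < r}} log (1 / |x - y|) |V y| dy` tends to `0` for `r → 0`. -/
def LocalKato (Ω : Set Plane) (V : Plane → ℝ) : Prop :=
  ∀ K : Set Plane, K ⊆ Ω → IsCompact K → ∀ ε : ℝ, 0 < ε → ∃ δ : ℝ, 0 < δ ∧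
    ∀ r : ℝ, 0 < r → r < δ → ∀ x : Plane,
      ∫⁻ y in K ∩ ball x r, ENNReal.ofReal (Real.log (1 / ‖x - y‖) * |V y|) ≤ ENNReal.ofReal ε

/-- the logarithmic kernel -/
noncomputable def lg (z : Plane) : ℝ≥0∞ := ENNReal.ofReal (Real.log (1 / ‖z‖))

theorem lg_finite : ∫⁻ z in ball (0 : Plane) 1, lg z ≠ ⊤ := by
  have h1 : IntegrableOn (fun z : Plane => Real.log (1 / ‖z‖)) (ball (0 : Plane) 1) := by
    rw [integrableOn_fun_norm_addHaar (volume : Measure Plane) (f := fun s => Real.log (1 / s))]
    have hb : ∀ y ∈ Ioo (0 : ℝ) 1, ‖y ^ (Module.finrank ℝ Plane - 1) • Real.log (1 / y)‖ ≤ 1 := by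
      intro y hy
      have hr : Module.finrank ℝ Plane - 1 = 1 := by simp [Plane]
      rw [hr, pow_one, smul_eq_mul, Real.norm_eq_abs]
      have h2 : 0 ≤ Real.log (1 / y) := Real.log_nonneg (by rw [le_div_iff₀ hy.1]; linarith [hy.2])
      have h3 : Real.log (1 / y) ≤ 1 / y - 1 := Real.log_le_sub_one_of_pos (by have := hy.1; positivity)
      rw [abs_of_nonneg (mul_nonneg hy.1.le h2)]
      have h4 : y * Real.log (1 / y) ≤ y * (1 / y - 1) := mul_le_mul_of_nonneg_left h3 hy.1.le
      have h5 : y * (1 / y - 1) = 1 - y := by have := hy.1; field_simp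
      linarith [hy.1]
    refine Measure.integrableOn_of_bounded (s_finite := ?_) ?_ (M := 1) ?_
    · simp
    · apply Measurable.aestronglyMeasurable
      fun_prop
    · rw [ae_restrict_iff' measurableSet_Ioo]
      exact Filter.Eventually.of_forall hb
  have h2 := h1.lintegral_lt_top
  exact h2.ne

theorem lintegral_translate (x : Plane) (r : ℝ) :
    ∫⁻ y in ball x r, lg (x - y) = ∫⁻ z in ball (0 : Plane) r, lg z := by
  rw [← lintegral_indicator measurableSet_ball, ← lintegral_indicator measurableSet_ball,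
    ← lintegral_sub_left_eq_self (μ := volume) ((ball (0 : Plane) r).indicator lg) x]
  congr 1
  funext y
  by_cases hy : y ∈ ball x r
  · have : x - y ∈ ball (0 : Plane) r := by
      rw [mem_ball, dist_zero_right, ← dist_eq_norm, dist_comm]; exact hy
    rw [indicator_of_mem hy, indicator_of_mem this]
  · have : x - y ∉ ball (0 : Plane) r := by
      rw [mem_ball, dist_zero_right, ← dist_eq_norm, dist_comm]; exact hy
    rw [indicator_of_notMem hy, indicator_of_notMem this]

theorem localKato_of_continuousOn {Ω : Set Plane} {V : Plane → ℝ} (hV : ContinuousOn V Ω) :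
    LocalKato Ω V := by
  intro K hKΩ hK ε hε
  obtain ⟨M, hM⟩ := hK.exists_bound_of_continuousOn (hV.mono hKΩ)
  set M' : ℝ := max M 1 with hM'
  have hM'pos : 0 < M' := lt_of_lt_of_le one_pos (le_max_right _ _)
  obtain ⟨δ₀, hδ₀, hδ⟩ := exists_pos_setLIntegral_lt_of_measure_lt
    (μ := volume.restrict (ball (0 : Plane) 1)) lg_finite
    (ε := ENNReal.ofReal (ε / M')) (by
      simp only [ne_eq, ENNReal.ofReal_eq_zero, not_le]; positivity)
  -- small balls have small measure
  have hlim : Filter.Tendsto (fun r : ℝ => (volume.restrict (ball (0 : Plane) 1)) (ball (0 : Plane) r))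
      (𝓝 0) (𝓝 0) := by
    have h1 : Filter.Tendsto (fun r : ℝ => ENNReal.ofReal (|r| ^ 2) *
        volume (ball (0 : Plane) 1)) (𝓝 0) (𝓝 (ENNReal.ofReal (|(0 : ℝ)| ^ 2) *
          volume (ball (0 : Plane) 1))) := by
      apply ENNReal.Tendsto.mul_const
      · exact (ENNReal.continuous_ofReal.comp (by fun_prop : Continuous fun r : ℝ => |r| ^ 2)).tendsto 0
      · exact Or.inr measure_ball_lt_top.ne
    have e0 : ENNReal.ofReal (|(0 : ℝ)| ^ 2) * volume (ball (0 : Plane) 1) = 0 := by simp
    rw [e0] at h1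
    refine tendsto_of_tendsto_of_tendsto_of_le_of_le tendsto_const_nhds h1 (fun _ => bot_le) ?_
    intro r
    refine (Measure.restrict_apply_le _ _).trans ?_
    rcases le_or_gt r 0 with hr | hr
    · rw [ball_eq_empty.2 hr]; simp
    · rw [Measure.addHaar_ball_of_pos _ _ hr]
      simp
  obtain ⟨δ₁, hδ₁, h1⟩ := Metric.eventually_nhds_iff.1 (hlim.eventually (gt_mem_nhds hδ₀))
  refine ⟨min δ₁ 1, lt_min hδ₁ one_pos, fun r hr0 hr x => ?_⟩
  have hr1 : r < 1 := lt_of_lt_of_le hr (min_le_right _ _)
  have hrδ : r < δ₁ := lt_of_lt_of_le hr (min_le_left _ _)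
  have hsmall := hδ (ball (0 : Plane) r) (h1 (by rw [dist_zero_right, Real.norm_eq_abs, abs_of_pos hr0]; exact hrδ))
  rw [Measure.restrict_restrict measurableSet_ball,
    inter_eq_left.2 (ball_subset_ball hr1.le)] at hsmall
  calc ∫⁻ y in K ∩ ball x r, ENNReal.ofReal (Real.log (1 / ‖x - y‖) * |V y|)
      ≤ ∫⁻ y in K ∩ ball x r, ENNReal.ofReal M' * lg (x - y) := by
        apply setLIntegral_mono' (hK.measurableSet.inter measurableSet_ball)
        intro y hy
        have hb := hM y hy.1
        rw [Real.norm_eq_abs] at hb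
        have hb' : |V y| ≤ M' := hb.trans (le_max_left _ _)
        rw [lg, ← ENNReal.ofReal_mul hM'pos.le]
        apply ENNReal.ofReal_le_ofReal
        rw [mul_comm]
        have hlog : 0 ≤ Real.log (1 / ‖x - y‖) := by
          rcases eq_or_lt_of_le (norm_nonneg (x - y)) with h0 | h0
          · rw [← h0]; simp
          · apply Real.log_nonneg
            rw [le_div_iff₀ h0, one_mul, ← dist_eq_norm, dist_comm]
            exact (hy.2.trans hr1).le
        exact mul_le_mul_of_nonneg_right hb' hlog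
    _ ≤ ∫⁻ y in ball x r, ENNReal.ofReal M' * lg (x - y) :=
        lintegral_mono_set inter_subset_right
    _ = ENNReal.ofReal M' * ∫⁻ z in ball (0 : Plane) r, lg z := by
        rw [lintegral_const_mul' _ _ ENNReal.ofReal_ne_top, lintegral_translate]
    _ ≤ ENNReal.ofReal M' * ENNReal.ofReal (ε / M') := by gcongr
    _ = ENNReal.ofReal ε := by
        rw [← ENNReal.ofReal_mul hM'pos.le]
        congr 1
        field_simp

end Q8.TM
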