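import Pool.Agent.Q8.TM.Geo
import Pool.Agent.Q8.TM.Coercive
import Pool.Agent.Q8.TM.Kato

set_option autoImplicit false

/-!
The counterexample: test functions of bounded energy with arbitrarily large exponential integral.
-/

namespace Q8.TM

open MeasureTheory Metric Set
open scoped ContDiff Topology

namespace Discs

variable {Ω : Set Plane} (D : Discs Ω)

/-- energy of the cut-off function -/
noncomputable def cst (k : ℕ) : ℝ := ∫ x in Ω, ‖fderiv ℝ (D.χ k) x‖ ^ 2

theorem cst_nonneg (k : ℕ) : 0 ≤ D.cst k := integral_nonneg fun x => sq_nonneg _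

/-- the size of the test functions -/
noncomputable def t (k : ℕ) : ℝ := 1 / Real.sqrt (1 + D.cst k)

theorem t_pos (k : ℕ) : 0 < D.t k := by
  have := D.cst_nonneg k
  have : 0 < Real.sqrt (1 + D.cst k) := Real.sqrt_pos.2 (by linarith)
  rw [t]; positivity

theorem t_sq (k : ℕ) : D.t k ^ 2 * D.cst k ≤ 1 := by
  have h := D.cst_nonneg k
  rw [t, div_pow, one_pow, Real.sq_sqrt (by linarith), div_mul_eq_mul_div, one_mul,
    div_le_one (by linarith)]
  linarith

/-- the measure of the disc where the peak is flat -/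
noncomputable def m (k : ℕ) : ℝ := (volume (ball (D.y k) (D.r k / 4))).toReal

theorem m_pos (k : ℕ) : 0 < D.m k := by
  have h1 := D.hr k
  apply ENNReal.toReal_pos
  · exact (Metric.measure_ball_pos volume _ (by positivity)).ne'
  · exact measure_ball_lt_top.ne

/-- the heights of the peaks -/
noncomputable def A (k : ℕ) : ℝ := (k / D.m k) / (4 * Real.pi * D.t k ^ 2)

theorem A_nonneg (k : ℕ) : 0 ≤ D.A k := by
  have := D.m_pos k
  rw [A]; positivity

theorem A_spec (k : ℕ) : (k : ℝ) < D.m k * Real.exp (4 * Real.pi * (D.t k * (1 + D.A k)) ^ 2) := by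
  have hm := D.m_pos k
  have ht := D.t_pos k
  have hA := D.A_nonneg k
  have h1 : k / D.m k = 4 * Real.pi * D.t k ^ 2 * D.A k := by
    rw [A]; field_simp
  have h2 : 4 * Real.pi * D.t k ^ 2 * D.A k ≤ 4 * Real.pi * (D.t k * (1 + D.A k)) ^ 2 := by
    have : 0 ≤ 4 * Real.pi * D.t k ^ 2 := by positivity
    nlinarith [mul_nonneg this hA, mul_nonneg this (sq_nonneg (D.A k))]
  have h3 := Real.add_one_le_exp (4 * Real.pi * (D.t k * (1 + D.A k)) ^ 2)
  have h4 : k / D.m k < Real.exp (4 * Real.pi * (D.t k * (1 + D.A k)) ^ 2) := by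
    rw [h1]; linarith
  rw [div_lt_iff₀ hm] at h4
  linarith

theorem χ_test (k : ℕ) (t : ℝ) : IsTest Ω (fun x => t * D.χ k x) := by
  have hz : ∀ x, x ∉ closedBall (D.y k) (D.r k) → t * D.χ k x = 0 := by
    intro x hx
    have : D.χ k x = 0 := by
      apply ContDiffBump.zero_of_le_dist
      rw [mem_closedBall, not_le] at hx
      exact hx.le
    rw [this, mul_zero]
  exact ⟨contDiff_const.mul (D.χ k).contDiff, compact_of_zero (isCompact_closedBall _ _) hz,
    (tsupport_sub isClosed_closedBall hz).trans (D.sub k)⟩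

/-- `h = 1` where the gradient of the cut-off function does not vanish. -/
theorem h_grad (k : ℕ) (x : Plane) (A : ℕ → ℝ) :
    D.h A x ^ 2 * ‖fderiv ℝ (D.χ k) x‖ ^ 2 = ‖fderiv ℝ (D.χ k) x‖ ^ 2 := by
  rcases lt_or_ge (dist x (D.y k)) (D.r k / 2) with h1 | h1
  · have : (D.χ k : Plane → ℝ) =ᶠ[𝓝 x] fun _ => 1 := by
      filter_upwards [isOpen_ball.mem_nhds (show x ∈ ball (D.y k) (D.r k / 2) from h1)] with x' hx'
      apply ContDiffBump.one_of_mem_closedBall
      exact ball_subset_closedBall hx'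
    rw [this.fderiv_eq]
    simp
  · rcases lt_or_ge (D.r k) (dist x (D.y k)) with h2 | h2
    · have : (D.χ k : Plane → ℝ) =ᶠ[𝓝 x] fun _ => 0 := by
        filter_upwards [isClosed_closedBall.isOpen_compl.mem_nhds
          (show x ∈ (closedBall (D.y k) (D.r k))ᶜ from not_le.2 h2)] with x' hx'
        apply ContDiffBump.zero_of_le_dist
        rw [mem_compl_iff, mem_closedBall, not_le] at hx'
        exact hx'.le
      rw [this.fderiv_eq]
      simp
    · have : D.b k x = 0 := ContDiffBump.zero_of_le_dist _ h1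
      rw [D.h_on A (k := k) h2, this]
      ring

theorem energy_le (k : ℕ) (ho : IsOpen Ω) :
    energy Ω (pot (D.h D.A)) (fun x => D.h D.A x * (D.t k * D.χ k x)) ≤ 1 := by
  rw [energy_mul ho (D.h_smooth D.A) (fun x _ => D.one_le_h D.A_nonneg x) (D.χ_test k (D.t k))]
  have e1 : ∀ x, D.h D.A x ^ 2 * ‖fderiv ℝ (fun x => D.t k * D.χ k x) x‖ ^ 2 =
      D.t k ^ 2 * ‖fderiv ℝ (D.χ k) x‖ ^ 2 := by
    intro x
    have hd : DifferentiableAt ℝ (D.χ k) x :=
      ((D.χ k).contDiff (n := 1)).differentiable (by simp) x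
    have : fderiv ℝ (fun x => D.t k * D.χ k x) x = D.t k • fderiv ℝ (D.χ k) x :=
      fderiv_const_mul hd _
    rw [this, norm_smul, mul_pow, Real.norm_eq_abs, sq_abs]
    have := D.h_grad k x D.A
    linear_combination D.t k ^ 2 * this
  simp only [e1]
  rw [integral_const_mul]
  exact D.t_sq k

theorem exp_large (k : ℕ) (ho : IsOpen Ω) (hb : Bornology.IsBounded Ω) :
    (k : ℝ) < ∫ x in Ω, Real.exp (4 * Real.pi * (D.h D.A x * (D.t k * D.χ k x)) ^ 2) := by
  refine (D.A_spec k).trans_le ?_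
  have hu := (D.χ_test k (D.t k)).mul_left ho (D.h_smooth D.A)
  have hcont : Continuous (fun x => Real.exp (4 * Real.pi * (D.h D.A x * (D.t k * D.χ k x)) ^ 2)) :=
    Real.continuous_exp.comp (continuous_const.mul (hu.smooth.continuous.pow 2))
  have hint : IntegrableOn
      (fun x => Real.exp (4 * Real.pi * (D.h D.A x * (D.t k * D.χ k x)) ^ 2)) Ω :=
    (hcont.continuousOn.integrableOn_compact hb.isCompact_closure).mono_set subset_closure
  have hr := D.hr k
  have hsub : ball (D.y k) (D.r k / 4) ⊆ Ω := by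
    refine Subset.trans ?_ (D.sub k)
    exact ball_subset_closedBall.trans (closedBall_subset_closedBall (by linarith))
  have h1 : ∫ x in ball (D.y k) (D.r k / 4),
      Real.exp (4 * Real.pi * (D.h D.A x * (D.t k * D.χ k x)) ^ 2) =
      D.m k * Real.exp (4 * Real.pi * (D.t k * (1 + D.A k)) ^ 2) := by
    have : ∀ x ∈ ball (D.y k) (D.r k / 4),
        Real.exp (4 * Real.pi * (D.h D.A x * (D.t k * D.χ k x)) ^ 2) =
        Real.exp (4 * Real.pi * (D.t k * (1 + D.A k)) ^ 2) := by
      intro x hx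
      have hx' : dist x (D.y k) < D.r k / 4 := hx
      have e1 : D.b k x = 1 := by
        apply ContDiffBump.one_of_mem_closedBall
        exact ball_subset_closedBall hx
      have e2 : D.χ k x = 1 := by
        apply ContDiffBump.one_of_mem_closedBall
        show dist x (D.y k) ≤ D.r k / 2
        linarith
      rw [D.h_on D.A (k := k) (by rw [mem_closedBall]; linarith), e1, e2]
      congr 1
      ring
    rw [setIntegral_congr_fun measurableSet_ball this]
    simp [m, Measure.real]
  rw [← h1]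
  exact setIntegral_mono_set hint (Filter.Eventually.of_forall fun x => (Real.exp_pos _).le)
    (Filter.Eventually.of_forall hsub)

end Discs

/-- **Main theorem.** -/
theorem main (Ω : Set Plane) (ho : IsOpen Ω) (hb : Bornology.IsBounded Ω) (hne : Ω.Nonempty) :
    ∃ V : Plane → ℝ, ContDiffOn ℝ ∞ V Ω ∧ LocalKato Ω V ∧ WeaklyCoercive Ω (energy Ω V) ∧
      ∀ M : ℝ, ∃ u : Plane → ℝ, IsTest Ω u ∧ energy Ω V u ≤ 1 ∧
        M < ∫ x in Ω, Real.exp (4 * Real.pi * u x ^ 2) := by
  obtain ⟨D⟩ := exists_discs ho hb hne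
  have h1 : ∀ x ∈ Ω, 1 ≤ D.h D.A x := fun x _ => D.one_le_h D.A_nonneg x
  have hs := pot_contDiffOn ho (D.h_smooth D.A) h1
  refine ⟨pot (D.h D.A), hs, localKato_of_continuousOn hs.continuousOn,
    weaklyCoercive ho hb hne (D.h_smooth D.A) h1, fun M => ?_⟩
  obtain ⟨k, hk⟩ := exists_nat_gt M
  exact ⟨_, (D.χ_test k (D.t k)).mul_left ho (D.h_smooth D.A), D.energy_le k ho,
    hk.trans (D.exp_large k ho hb)⟩

end Q8.TM
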