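import Pool.Agent.Q8.TM.Basic

set_option autoImplicit false

/-!
A sequence of disjoint discs in a bounded open set which converges to a boundary point, and the
positive function with peaks in these discs.
-/

namespace Q8.TM

open MeasureTheory Metric Set
open scoped ContDiff Topology

/-- Disjoint discs converging to the boundary point `z`. -/
structure Discs (Ω : Set Plane) where
  z : Plane
  y : ℕ → Plane
  r : ℕ → ℝ
  hz : z ∉ Ω
  hr : ∀ k, 0 < r k
  sub : ∀ k, closedBall (y k) (r k) ⊆ Ω
  small : ∀ k, 4 * r k ≤ dist (y k) z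
  decay : ∀ k, dist (y (k + 1)) z ≤ dist (y k) z / 4

theorem exists_discs {Ω : Set Plane} (ho : IsOpen Ω) (hb : Bornology.IsBounded Ω)
    (hne : Ω.Nonempty) : Nonempty (Discs Ω) := by
  have huniv : Ω ≠ univ := by
    rintro rfl
    exact NormedSpace.unbounded_univ ℝ Plane hb
  obtain ⟨z, hz⟩ := nonempty_frontier_iff.2 ⟨hne, huniv⟩
  have hzΩ : z ∉ Ω := by
    intro h
    rw [ho.frontier_eq] at hz
    exact hz.2 h
  have hcl : z ∈ closure Ω := frontier_subset_closure hz
  have step : ∀ y : Ω, ∃ y' : Ω, dist (y' : Plane) z ≤ dist (y : Plane) z / 4 := by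
    intro y
    have hd : 0 < dist (y : Plane) z := dist_pos.2 (fun h => hzΩ (h ▸ y.2))
    obtain ⟨b, hbΩ, hbd⟩ := Metric.mem_closure_iff.1 hcl (dist (y : Plane) z / 4) (by positivity)
    exact ⟨⟨b, hbΩ⟩, by rw [dist_comm]; exact hbd.le⟩
  choose f hf using step
  obtain ⟨y₀, hy₀⟩ := hne
  set Y : ℕ → Ω := fun n => f^[n] ⟨y₀, hy₀⟩ with hY
  have hYd : ∀ k, 0 < dist (Y k : Plane) z := fun k => dist_pos.2 (fun h => hzΩ (h ▸ (Y k).2))
  have hball : ∀ k, ∃ ε : ℝ, 0 < ε ∧ closedBall (Y k : Plane) ε ⊆ Ω := fun k =>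
    Metric.nhds_basis_closedBall.mem_iff.1 (ho.mem_nhds (Y k).2)
  choose ε hε hεs using hball
  refine ⟨⟨z, fun k => Y k, fun k => min (ε k) (dist (Y k : Plane) z / 4), hzΩ, fun k => ?_,
    fun k => ?_, fun k => ?_, fun k => ?_⟩⟩
  · exact lt_min (hε k) (by have := hYd k; positivity)
  · exact (closedBall_subset_closedBall (min_le_left _ _)).trans (hεs k)
  · have := min_le_right (ε k) (dist (Y k : Plane) z / 4)
    linarith
  · have := hf (Y k)
    have e : Y (k + 1) = f (Y k) := by
      simp only [hY, Function.iterate_succ_apply']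
    rw [e]
    exact this

namespace Discs

variable {Ω : Set Plane} (D : Discs Ω)

theorem dpos (k : ℕ) : 0 < dist (D.y k) D.z := by
  have := D.small k
  have := D.hr k
  linarith

theorem decay_lt {k l : ℕ} (h : k < l) : dist (D.y l) D.z ≤ dist (D.y k) D.z / 4 := by
  induction l, h using Nat.le_induction with
  | base => exact D.decay k
  | succ n hn ih =>
    have := D.decay n
    have := D.dpos n
    linarith

theorem upper {k : ℕ} {x : Plane} (hx : x ∈ closedBall (D.y k) (D.r k)) :
    dist x D.z ≤ 5 / 4 * dist (D.y k) D.z := by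
  have h1 := dist_triangle x (D.y k) D.z
  have h2 := D.small k
  rw [mem_closedBall] at hx
  linarith

theorem lower {k : ℕ} {x : Plane} (hx : x ∈ closedBall (D.y k) (D.r k)) :
    3 / 4 * dist (D.y k) D.z ≤ dist x D.z := by
  have h1 := dist_triangle (D.y k) x D.z
  have h2 := D.small k
  rw [mem_closedBall, dist_comm] at hx
  linarith

theorem unique {k l : ℕ} {x : Plane} (hk : x ∈ closedBall (D.y k) (D.r k))
    (hl : x ∈ closedBall (D.y l) (D.r l)) : k = l := by
  rcases lt_trichotomy k l with h | h | h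
  · exfalso
    have h1 := D.decay_lt h
    have h2 := D.upper hl
    have h3 := D.lower hk
    have := D.dpos k
    linarith
  · exact h
  · exfalso
    have h1 := D.decay_lt h
    have h2 := D.upper hk
    have h3 := D.lower hl
    have := D.dpos l
    linarith

theorem tends : Filter.Tendsto (fun k => dist (D.y k) D.z) Filter.atTop (𝓝 0) := by
  have h : ∀ k, dist (D.y k) D.z ≤ dist (D.y 0) D.z * (1 / 4) ^ k := by
    intro k
    induction k with
    | zero => simp
    | succ n ih =>
      have := D.decay n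
      rw [pow_succ]
      linarith
  refine squeeze_zero (fun k => dist_nonneg) h ?_
  have := (tendsto_pow_atTop_nhds_zero_of_lt_one (r := (1 / 4 : ℝ)) (by norm_num) (by norm_num)).const_mul
    (dist (D.y 0) D.z)
  simpa using this

/-- the peaks -/
noncomputable def b (k : ℕ) : ContDiffBump (D.y k) :=
  ⟨D.r k / 4, D.r k / 2, by have := D.hr k; positivity, by have := D.hr k; linarith⟩

/-- the cut-off functions -/
noncomputable def χ (k : ℕ) : ContDiffBump (D.y k) :=
  ⟨D.r k / 2, D.r k, by have := D.hr k; positivity, by have := D.hr k; linarith⟩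

theorem b_zero {k : ℕ} {x : Plane} (hx : x ∉ closedBall (D.y k) (D.r k)) : D.b k x = 0 := by
  apply ContDiffBump.zero_of_le_dist
  rw [mem_closedBall, not_le] at hx
  have := D.hr k
  show D.r k / 2 ≤ _
  linarith

/-- the function with peaks -/
noncomputable def h (A : ℕ → ℝ) (x : Plane) : ℝ := 1 + ∑' k, A k * D.b k x

theorem h_on (A : ℕ → ℝ) {k : ℕ} {x : Plane} (hx : x ∈ closedBall (D.y k) (D.r k)) :
    D.h A x = 1 + A k * D.b k x := by
  rw [h, tsum_eq_single k]
  intro l hl
  rw [D.b_zero (fun h' => hl (D.unique h' hx)), mul_zero]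

theorem one_le_h {A : ℕ → ℝ} (hA : ∀ k, 0 ≤ A k) (x : Plane) : 1 ≤ D.h A x := by
  rw [h]
  have : 0 ≤ ∑' k, A k * D.b k x := tsum_nonneg fun k => mul_nonneg (hA k) (D.b k).nonneg
  linarith

theorem h_smooth (A : ℕ → ℝ) : ContDiffOn ℝ ∞ (D.h A) Ω := by
  intro x hx
  apply ContDiffAt.contDiffWithinAt
  have hxz : 0 < dist x D.z := dist_pos.2 (fun h' => D.hz (h' ▸ hx))
  obtain ⟨N, hN⟩ := Filter.eventually_atTop.1 (D.tends.eventually
    (gt_mem_nhds (show (0 : ℝ) < dist x D.z / 4 by positivity)))
  have hev : D.h A =ᶠ[𝓝 x] fun x' => 1 + ∑ k ∈ Finset.range N, A k * D.b k x' := by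
    filter_upwards [Metric.ball_mem_nhds x (show (0 : ℝ) < dist x D.z / 2 by positivity)] with x' hx'
    rw [h, tsum_eq_sum (s := Finset.range N)]
    intro k hk
    rw [Finset.mem_range, not_lt] at hk
    rw [D.b_zero, mul_zero]
    intro hmem
    have h1 := D.upper hmem
    have h2 := hN k hk
    rw [mem_ball, dist_comm] at hx'
    have h3 := dist_triangle x x' D.z
    linarith
  refine ContDiffAt.congr_of_eventuallyEq ?_ hev
  apply ContDiffAt.add contDiffAt_const
  apply ContDiffAt.sum
  intro k _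
  exact contDiffAt_const.mul (D.b k).contDiffAt

end Discs

end Q8.TM
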