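import Pool.Agent.Q8.TM.Basic

set_option autoImplicit false

/-!
The ground state representation: `∫ |∇(h v)|² + ∫ (Δh / h) (h v)² = ∫ h² |∇v|²`.
-/

namespace Q8.TM

open MeasureTheory Metric Set
open scoped ContDiff Topology

/-- partial derivative -/
noncomputable def pd (f : Plane → ℝ) (i : Fin 2) (x : Plane) : ℝ := fderiv ℝ f x (e i)

/-- `V = - Δh / h` -/
noncomputable def pot (h : Plane → ℝ) (x : Plane) : ℝ := -(∑ i, pd (pd h i) i x) / h x

/-- `∫_Ω |∇u|² - ∫_Ω V u²` -/
noncomputable def energy (Ω : Set Plane) (V : Plane → ℝ) (u : Plane → ℝ) : ℝ :=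
  (∫ x in Ω, ‖fderiv ℝ u x‖ ^ 2) - ∫ x in Ω, V x * u x ^ 2

variable {Ω : Set Plane} {h : Plane → ℝ}

theorem pd_contDiffOn (ho : IsOpen Ω) (hh : ContDiffOn ℝ ∞ h Ω) (i : Fin 2) :
    ContDiffOn ℝ ∞ (pd h i) Ω := by
  have := hh.fderiv_of_isOpen (m := ∞) ho (by simp)
  exact this.clm_apply contDiffOn_const

theorem pot_contDiffOn (ho : IsOpen Ω) (hh : ContDiffOn ℝ ∞ h Ω) (h1 : ∀ x ∈ Ω, 1 ≤ h x) :
    ContDiffOn ℝ ∞ (pot h) Ω := by
  have h2 : ContDiffOn ℝ ∞ (fun x => ∑ i, pd (pd h i) i x) Ω := by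
    apply ContDiffOn.sum
    intro i _
    exact pd_contDiffOn ho (pd_contDiffOn ho hh i) i
  exact (h2.neg).div hh (fun x hx => by have := h1 x hx; positivity)

theorem IsTest.mul_left (ho : IsOpen Ω) (hh : ContDiffOn ℝ ∞ h Ω) {v : Plane → ℝ}
    (hv : IsTest Ω v) : IsTest Ω (fun x => h x * v x) := by
  have h0 : ∀ x, x ∉ tsupport v → h x * v x = 0 := by
    intro x hx
    rw [image_eq_zero_of_notMem_tsupport hx, mul_zero]
  have hK : IsCompact (tsupport v) := hv.compact
  exact ⟨patch ho hK.isClosed hv.support (hh.mul hv.smooth.contDiffOn) h0,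
    compact_of_zero hK h0, (tsupport_sub hK.isClosed h0).trans hv.support⟩

theorem IsTest.div_left (ho : IsOpen Ω) (hh : ContDiffOn ℝ ∞ h Ω) (h1 : ∀ x ∈ Ω, 1 ≤ h x)
    {u : Plane → ℝ} (hu : IsTest Ω u) : IsTest Ω (fun x => u x / h x) := by
  have h0 : ∀ x, x ∉ tsupport u → u x / h x = 0 := by
    intro x hx
    rw [image_eq_zero_of_notMem_tsupport hx, zero_div]
  have hK : IsCompact (tsupport u) := hu.compact
  exact ⟨patch ho hK.isClosed hu.support (hu.smooth.contDiffOn.div hh
      (fun x hx => by have := h1 x hx; positivity)) h0,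
    compact_of_zero hK h0, (tsupport_sub hK.isClosed h0).trans hu.support⟩

theorem IsTest.eq_mul_div (h1 : ∀ x ∈ Ω, 1 ≤ h x)
    {u : Plane → ℝ} (hu : IsTest Ω u) : u = fun x => h x * (u x / h x) := by
  funext x
  by_cases hx : x ∈ tsupport u
  · have := h1 x (hu.support hx)
    field_simp
  · rw [image_eq_zero_of_notMem_tsupport hx, zero_div, mul_zero]

/-- the pointwise identity -/
theorem pointwise (ho : IsOpen Ω) (hh : ContDiffOn ℝ ∞ h Ω) (h1 : ∀ x ∈ Ω, 1 ≤ h x)
    {v : Plane → ℝ} (hv : IsTest Ω v) {x : Plane} (hx : x ∈ Ω) :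
    ‖fderiv ℝ (fun x => h x * v x) x‖ ^ 2 - pot h x * (h x * v x) ^ 2 =
      h x ^ 2 * ‖fderiv ℝ v x‖ ^ 2 +
        ∑ i, fderiv ℝ (fun x => h x * v x ^ 2 * pd h i x) x (e i) := by
  have dh : HasFDerivAt h (fderiv ℝ h x) x :=
    ((hh x hx).contDiffAt (ho.mem_nhds hx)).differentiableAt (by simp) |>.hasFDerivAt
  have dv : HasFDerivAt v (fderiv ℝ v x) x :=
    (hv.smooth.differentiable (by simp) x).hasFDerivAt
  have dp : ∀ i, HasFDerivAt (pd h i) (fderiv ℝ (pd h i) x) x := fun i =>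
    ((pd_contDiffOn ho hh i x hx).contDiffAt (ho.mem_nhds hx)).differentiableAt (by simp)
      |>.hasFDerivAt
  have hpos := h1 x hx
  have e1 : ∀ i, fderiv ℝ (fun x => h x * v x) x (e i) =
      h x * fderiv ℝ v x (e i) + v x * fderiv ℝ h x (e i) := by
    intro i
    have k : HasFDerivAt (fun x => h x * v x) (h x • fderiv ℝ v x + v x • fderiv ℝ h x) x :=
      dh.mul dv
    rw [k.fderiv]
    simp
  have e2 : ∀ i, fderiv ℝ (fun x => h x * v x ^ 2 * pd h i x) x (e i) =
      h x * v x ^ 2 * pd (pd h i) i x +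
        pd h i x * (h x * (2 * v x * fderiv ℝ v x (e i)) + v x ^ 2 * pd h i x) := by
    intro i
    have k : HasFDerivAt (fun x => h x * v x ^ 2 * pd h i x) _ x :=
      (dh.mul (dv.pow 2)).mul (dp i)
    rw [k.fderiv]
    simp only [pd, add_apply, smul_apply, smul_eq_mul]
    simp
  rw [norm_sq_eq, norm_sq_eq]
  simp only [e1, e2]
  simp only [pot, Fin.sum_univ_two, pd]
  field_simp
  ring

theorem setIntegral_eq {f : Plane → ℝ} (h0 : ∀ x, x ∉ Ω → f x = 0) :
    ∫ x in Ω, f x = ∫ x, f x :=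
  setIntegral_eq_integral_of_forall_compl_eq_zero h0

/-- **Ground state representation.** -/
theorem energy_mul (ho : IsOpen Ω) (hh : ContDiffOn ℝ ∞ h Ω) (h1 : ∀ x ∈ Ω, 1 ≤ h x)
    {v : Plane → ℝ} (hv : IsTest Ω v) :
    energy Ω (pot h) (fun x => h x * v x) = ∫ x in Ω, h x ^ 2 * ‖fderiv ℝ v x‖ ^ 2 := by
  have hu := hv.mul_left ho hh
  have hK : IsCompact (tsupport v) := hv.compact
  have zv : ∀ x, x ∉ tsupport v → v x = 0 := fun x hx => image_eq_zero_of_notMem_tsupport hx
  -- integrability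
  have i1 : Integrable (fun x => ‖fderiv ℝ (fun x => h x * v x) x‖ ^ 2) := by
    apply Continuous.integrable_of_hasCompactSupport
    · exact (hu.smooth.continuous_fderiv (by simp)).norm.pow 2
    · apply compact_of_zero hu.compact
      intro x hx
      rw [fderiv_zero_of_notMem hx]; simp
  have i2 : Integrable (fun x => pot h x * (h x * v x) ^ 2) := by
    have z : ∀ x, x ∉ tsupport v → pot h x * (h x * v x) ^ 2 = 0 := by
      intro x hx; rw [zv x hx]; ring
    have c := patch ho hK.isClosed hv.support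
      ((pot_contDiffOn ho hh h1).mul ((hh.mul hv.smooth.contDiffOn).pow 2)) z
    exact c.continuous.integrable_of_hasCompactSupport (compact_of_zero hK z)
  have i3 : Integrable (fun x => h x ^ 2 * ‖fderiv ℝ v x‖ ^ 2) := by
    have z : ∀ x, x ∉ tsupport v → h x ^ 2 * ∑ i, (fderiv ℝ v x (e i)) ^ 2 = 0 := by
      intro x hx
      rw [fderiv_zero_of_notMem hx]; simp
    have hs : ContDiff ℝ ∞ (fun x => ∑ i, (fderiv ℝ v x (e i)) ^ 2) := by
      apply ContDiff.sum
      intro i _
      exact ((hv.smooth.fderiv_right (m := ∞) (by simp)).clm_apply contDiff_const).pow 2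
    have c := patch ho hK.isClosed hv.support ((hh.pow 2).mul hs.contDiffOn) z
    have := c.continuous.integrable_of_hasCompactSupport (μ := volume) (compact_of_zero hK z)
    simpa only [norm_sq_eq] using this
  have zw : ∀ i x, x ∉ tsupport v → h x * v x ^ 2 * pd h i x = 0 := by
    intro i x hx; rw [zv x hx]; ring
  have cw : ∀ i, ContDiff ℝ ∞ (fun x => h x * v x ^ 2 * pd h i x) := fun i =>
    patch ho hK.isClosed hv.support
      ((hh.mul (hv.smooth.contDiffOn.pow 2)).mul (pd_contDiffOn ho hh i)) (zw i)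
  have sw : ∀ i, HasCompactSupport (fun x => h x * v x ^ 2 * pd h i x) := fun i =>
    compact_of_zero hK (zw i)
  have i4 : ∀ i, Integrable (fun x => fderiv ℝ (fun x => h x * v x ^ 2 * pd h i x) x (e i)) := by
    intro i
    apply Continuous.integrable_of_hasCompactSupport
    · exact ((cw i).continuous_fderiv (by simp)).clm_apply continuous_const
    · exact (sw i).fderiv_apply (𝕜 := ℝ) (e i)
  have i5 : Integrable (fun x => ∑ i, fderiv ℝ (fun x => h x * v x ^ 2 * pd h i x) x (e i)) :=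
    integrable_finsetSum _ (fun i _ => i4 i)
  have z5 : ∀ i x, x ∉ Ω → fderiv ℝ (fun x => h x * v x ^ 2 * pd h i x) x (e i) = 0 := by
    intro i x hx
    have : x ∉ tsupport (fun x => h x * v x ^ 2 * pd h i x) := fun h' =>
      hx (hv.support (tsupport_sub hK.isClosed (zw i) h'))
    rw [fderiv_zero_of_notMem this]; simp
  rw [energy, ← integral_sub i1.integrableOn i2.integrableOn,
    setIntegral_congr_fun ho.measurableSet (fun x hx => pointwise ho hh h1 hv hx),
    integral_add i3.integrableOn i5.integrableOn, integral_finsetSum _ (fun i _ => (i4 i).integrableOn)]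
  have : ∀ i, ∫ x in Ω, fderiv ℝ (fun x => h x * v x ^ 2 * pd h i x) x (e i) = 0 := by
    intro i
    rw [setIntegral_eq (z5 i), integral_fderiv_zero (cw i) (sw i)]
  simp [this]

end Q8.TM
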